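import Mathlib

namespace Pool.Agent.Results.MP_3bc6ef_co.Counter

/-- `A ⊆ ℤ_n` is `t`-independent: `0 ∉ [1,t]_± A`. -/
def Indep (n t : ℕ) (A : Finset (ZMod n)) : Prop :=
  ∀ l : ZMod n → ℤ, 1 ≤ ∑ a ∈ A, |l a| → ∑ a ∈ A, |l a| ≤ t → ∑ a ∈ A, l a • a ≠ 0

noncomputable def tau (n t : ℕ) : ℕ := sSup {m | ∃ A : Finset (ZMod n), Indep n t A ∧ A.card = m}

/-- tuple form -/
def T {n : ℕ} (a b c d e : ZMod n) : Prop :=
  ∀ p q r s u : ℤ, 1 ≤ |p| + |q| + |r| + |s| + |u| → |p| + |q| + |r| + |s| + |u| ≤ 4 →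
    p * a + q * b + r * c + s * d + u * e ≠ 0

lemma T_of (n : ℕ) (a b c d e : ZMod n) (hab : a ≠ b) (hac : a ≠ c) (had : a ≠ d) (hae : a ≠ e)
    (hbc : b ≠ c) (hbd : b ≠ d) (hbe : b ≠ e) (hcd : c ≠ d) (hce : c ≠ e) (hde : d ≠ e) :
    Indep n 4 {a, b, c, d, e} ↔ T a b c d e := by
  have hs : ∀ {M : Type} [AddCommMonoid M] (f : ZMod n → M),
      ∑ x ∈ ({a, b, c, d, e} : Finset (ZMod n)), f x = f a + f b + f c + f d + f e := by
    intro M _ f
    rw [Finset.sum_insert (by simp [*]), Finset.sum_insert (by simp [*]),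
      Finset.sum_insert (by simp [*]), Finset.sum_pair hde]
    simp only [add_assoc]
  constructor
  · intro h p q r s u h1 h2
    have := h (fun x => if x = a then p else if x = b then q else if x = c then r else
      if x = d then s else u)
    simp only [hs] at this
    simp only [if_true, if_neg hab.symm, if_neg hac.symm, if_neg had.symm, if_neg hae.symm,
      if_neg hbc.symm, if_neg hbd.symm, if_neg hbe.symm, if_neg hcd.symm, if_neg hce.symm,
      if_neg hde.symm, zsmul_eq_mul] at this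
    exact this h1 (by exact_mod_cast h2)
  · intro h l
    simp only [hs, zsmul_eq_mul]
    intro h1 h2
    exact h _ _ _ _ _ h1 (by exact_mod_cast h2)

lemma sub_indep {n t : ℕ} {A B : Finset (ZMod n)} (h : Indep n t A) (hB : B ⊆ A) :
    Indep n t B := by
  intro l h1 h2
  have e : ∀ {M : Type} [AddCommMonoid M] (f : ZMod n → ℤ → M), (∀ a, f a 0 = 0) →
      ∑ a ∈ A, f a (if a ∈ B then l a else 0) = ∑ a ∈ B, f a (l a) := by
    intro M _ f hf
    rw [← Finset.sum_subset hB (fun a _ ha => by simp [ha, hf])]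
    exact Finset.sum_congr rfl fun a ha => by simp [ha]
  have := h (fun a => if a ∈ B then l a else 0)
  rw [e (fun _ z => |z|) (by simp), e (fun a z => z • a) (by simp)] at this
  exact this h1 h2

lemma T71 : T (1 : ZMod 71) 4 11 17 31 := by
  have key : ∀ p ∈ Finset.Icc (-4 : ℤ) 4, ∀ q ∈ Finset.Icc (-4 : ℤ) 4, 4 < |p| + |q| ∨
      ∀ r ∈ Finset.Icc (-4 : ℤ) 4, 4 < |p| + |q| + |r| ∨ ∀ s ∈ Finset.Icc (-4 : ℤ) 4,
      4 < |p| + |q| + |r| + |s| ∨ ∀ u ∈ Finset.Icc (-4 : ℤ) 4,
      |p| + |q| + |r| + |s| + |u| < 1 ∨ 4 < |p| + |q| + |r| + |s| + |u| ∨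
      ¬ (71 : ℤ) ∣ p + 4 * q + 11 * r + 17 * s + 31 * u := by decide +kernel
  intro p q r s u h1 h2 h
  have := abs_nonneg p; have := abs_nonneg q; have := abs_nonneg r; have := abs_nonneg s
  have := abs_nonneg u
  have m : ∀ z : ℤ, |z| ≤ 4 → z ∈ Finset.Icc (-4 : ℤ) 4 := fun z hz =>
    Finset.mem_Icc.2 (abs_le.1 hz)
  have hd : (71 : ℤ) ∣ p + 4 * q + 11 * r + 17 * s + 31 * u := by
    have := (ZMod.intCast_zmod_eq_zero_iff_dvd (p + 4 * q + 11 * r + 17 * s + 31 * u) 71).1
      (by push_cast; linear_combination h)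
    exact_mod_cast this
  rcases key p (m _ (by omega)) q (m _ (by omega)) with k | k
  · omega
  rcases k r (m _ (by omega)) with k | k
  · omega
  rcases k s (m _ (by omega)) with k | k
  · omega
  rcases k u (m _ (by omega)) with k | k | k
  · omega
  · omega
  · exact k hd

/-- relation tests -/
def z (x : ℕ) : Bool := x % 73 == 0
def r2 (a b : ℕ) : Bool :=
  z (a + 72 * b) || z (2 * a + b) || z (2 * a + 72 * b) || z (a + 2 * b) || z (a + 71 * b) ||
  z (3 * a + b) || z (3 * a + 72 * b) || z (a + 3 * b) || z (a + 70 * b)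
def r3' (a b c : ℕ) : Bool :=
  z (a + b + c) || z (a + b + 72 * c) || z (a + 72 * b + c) || z (a + 72 * b + 72 * c)
def r3 (a b c : ℕ) : Bool := r3' a b c || r3' (2 * a) b c || r3' a (2 * b) c || r3' a b (2 * c)
def r4 (a b c d : ℕ) : Bool := r3' (a + b) c d || r3' (a + 72 * b) c d

def R : List ℕ := List.range' 1 36

lemma search : (R.all fun b => r2 1 b || R.all fun c => r2 1 c || r2 b c || r3 1 b c ||
    R.all fun d => r2 1 d || r2 b d || r2 c d || r3 1 b d || r3 1 c d || r3 b c d || r4 1 b c d ||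
    R.all fun e => r2 1 e || r2 b e || r2 c e || r2 d e || r3 1 b e || r3 1 c e || r3 1 d e ||
      r3 b c e || r3 b d e || r3 c d e || r4 1 b c e || r4 1 b d e || r4 1 c d e || r4 b c d e) =
    true := by decide +kernel

lemma hz {x : ℕ} (h : z x = true) : (x : ZMod 73) = 0 := by
  rw [ZMod.natCast_eq_zero_iff]
  exact Nat.dvd_of_mod_eq_zero (by simpa [z] using h)

lemma c73 : (73 : ZMod 73) = 0 := by decide

lemma hr2 {a b : ℕ} (h : r2 a b = true) : ∃ p q : ℤ, 1 ≤ |p| + |q| ∧ |p| + |q| ≤ 4 ∧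
    (p * a + q * b : ZMod 73) = 0 := by
  simp only [r2, Bool.or_eq_true] at h
  rcases h with ((((((((h | h) | h) | h) | h) | h) | h) | h) | h) <;> have := hz h <;>
    push_cast at this
  · exact ⟨1, -1, by decide, by decide, by push_cast; linear_combination this - b * c73⟩
  · exact ⟨2, 1, by decide, by decide, by push_cast; linear_combination this⟩
  · exact ⟨2, -1, by decide, by decide, by push_cast; linear_combination this - b * c73⟩
  · exact ⟨1, 2, by decide, by decide, by push_cast; linear_combination this⟩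
  · exact ⟨1, -2, by decide, by decide, by push_cast; linear_combination this - b * c73⟩
  · exact ⟨3, 1, by decide, by decide, by push_cast; linear_combination this⟩
  · exact ⟨3, -1, by decide, by decide, by push_cast; linear_combination this - b * c73⟩
  · exact ⟨1, 3, by decide, by decide, by push_cast; linear_combination this⟩
  · exact ⟨1, -3, by decide, by decide, by push_cast; linear_combination this - b * c73⟩

lemma hr3' {a b c : ℕ} (h : r3' a b c = true) : ∃ q r : ℤ, |q| = 1 ∧ |r| = 1 ∧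
    (a + q * b + r * c : ZMod 73) = 0 := by
  simp only [r3', Bool.or_eq_true] at h
  rcases h with (((h | h) | h) | h) <;> have := hz h <;> push_cast at this
  · exact ⟨1, 1, by decide, by decide, by push_cast; linear_combination this⟩
  · exact ⟨1, -1, by decide, by decide, by push_cast; linear_combination this - c * c73⟩
  · exact ⟨-1, 1, by decide, by decide, by push_cast; linear_combination this - b * c73⟩
  · exact ⟨-1, -1, by decide, by decide, by push_cast; linear_combination this - (b + c) * c73⟩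

lemma hr3 {a b c : ℕ} (h : r3 a b c = true) : ∃ p q r : ℤ, 1 ≤ |p| + |q| + |r| ∧
    |p| + |q| + |r| ≤ 4 ∧ (p * a + q * b + r * c : ZMod 73) = 0 := by
  simp only [r3, Bool.or_eq_true] at h
  rcases h with (((h | h) | h) | h) <;> obtain ⟨q, r, hq, hr, e⟩ := hr3' h <;> push_cast at e
  · exact ⟨1, q, r, by simp [hq, hr], by simp [hq, hr], by push_cast; linear_combination e⟩
  · exact ⟨2, q, r, by simp [hq, hr], by simp [hq, hr], by push_cast; linear_combination e⟩
  · exact ⟨1, 2 * q, r, by simp [abs_mul, hq, hr], by simp [abs_mul, hq, hr],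
      by push_cast; linear_combination e⟩
  · exact ⟨1, q, 2 * r, by simp [abs_mul, hq, hr], by simp [abs_mul, hq, hr],
      by push_cast; linear_combination e⟩

lemma hr4 {a b c d : ℕ} (h : r4 a b c d = true) : ∃ p q r s : ℤ, 1 ≤ |p| + |q| + |r| + |s| ∧
    |p| + |q| + |r| + |s| ≤ 4 ∧ (p * a + q * b + r * c + s * d : ZMod 73) = 0 := by
  simp only [r4, Bool.or_eq_true] at h
  rcases h with (h | h) <;> obtain ⟨q, r, hq, hr, e⟩ := hr3' h <;> push_cast at e
  · exact ⟨1, 1, q, r, by simp [hq, hr], by simp [hq, hr], by push_cast; linear_combination e⟩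
  · exact ⟨1, -1, q, r, by simp [hq, hr], by simp [hq, hr],
      by push_cast; linear_combination e - b * c73⟩

lemma noT_nat (b c d e : ℕ) (hb : b ∈ R) (hc : c ∈ R) (hd : d ∈ R) (he : e ∈ R) :
    ¬ T (1 : ZMod 73) b c d e := by
  intro hT
  rcases Bool.or_eq_true_iff.1 (List.all_eq_true.1 search b hb) with h | h
  · obtain ⟨p, q, h1, h2, h3⟩ := hr2 h
    exact hT p q 0 0 0 (by simpa using h1) (by simpa using h2) (by simpa using h3)
  have h := List.all_eq_true.1 h c hc
  simp only [Bool.or_eq_true] at h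
  rcases h with (((h | h) | h) | h)
  · obtain ⟨p, q, h1, h2, h3⟩ := hr2 h
    exact hT p 0 q 0 0 (by simpa using h1) (by simpa using h2) (by simpa using h3)
  · obtain ⟨p, q, h1, h2, h3⟩ := hr2 h
    exact hT 0 p q 0 0 (by simpa using h1) (by simpa using h2) (by simpa using h3)
  · obtain ⟨p, q, r, h1, h2, h3⟩ := hr3 h
    exact hT p q r 0 0 (by simpa using h1) (by simpa using h2) (by simpa using h3)
  have h := List.all_eq_true.1 h d hd
  simp only [Bool.or_eq_true] at h
  rcases h with (((((((h | h) | h) | h) | h) | h) | h) | h)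
  · obtain ⟨p, q, h1, h2, h3⟩ := hr2 h
    exact hT p 0 0 q 0 (by simpa using h1) (by simpa using h2) (by simpa using h3)
  · obtain ⟨p, q, h1, h2, h3⟩ := hr2 h
    exact hT 0 p 0 q 0 (by simpa using h1) (by simpa using h2) (by simpa using h3)
  · obtain ⟨p, q, h1, h2, h3⟩ := hr2 h
    exact hT 0 0 p q 0 (by simpa using h1) (by simpa using h2) (by simpa using h3)
  · obtain ⟨p, q, r, h1, h2, h3⟩ := hr3 h
    exact hT p q 0 r 0 (by simpa using h1) (by simpa using h2) (by simpa using h3)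
  · obtain ⟨p, q, r, h1, h2, h3⟩ := hr3 h
    exact hT p 0 q r 0 (by simpa using h1) (by simpa using h2) (by simpa using h3)
  · obtain ⟨p, q, r, h1, h2, h3⟩ := hr3 h
    exact hT 0 p q r 0 (by simpa using h1) (by simpa using h2) (by simpa using h3)
  · obtain ⟨p, q, r, s, h1, h2, h3⟩ := hr4 h
    exact hT p q r s 0 (by simpa using h1) (by simpa using h2) (by simpa using h3)
  have h := List.all_eq_true.1 h e he
  simp only [Bool.or_eq_true] at h
  rcases h with (((((((((((((h | h) | h) | h) | h) | h) | h) | h) | h) | h) | h) | h) | h) | h)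
  · obtain ⟨p, q, h1, h2, h3⟩ := hr2 h
    exact hT p 0 0 0 q (by simpa using h1) (by simpa using h2) (by simpa using h3)
  · obtain ⟨p, q, h1, h2, h3⟩ := hr2 h
    exact hT 0 p 0 0 q (by simpa using h1) (by simpa using h2) (by simpa using h3)
  · obtain ⟨p, q, h1, h2, h3⟩ := hr2 h
    exact hT 0 0 p 0 q (by simpa using h1) (by simpa using h2) (by simpa using h3)
  · obtain ⟨p, q, h1, h2, h3⟩ := hr2 h
    exact hT 0 0 0 p q (by simpa using h1) (by simpa using h2) (by simpa using h3)
  · obtain ⟨p, q, r, h1, h2, h3⟩ := hr3 h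
    exact hT p q 0 0 r (by simpa using h1) (by simpa using h2) (by simpa using h3)
  · obtain ⟨p, q, r, h1, h2, h3⟩ := hr3 h
    exact hT p 0 q 0 r (by simpa using h1) (by simpa using h2) (by simpa using h3)
  · obtain ⟨p, q, r, h1, h2, h3⟩ := hr3 h
    exact hT p 0 0 q r (by simpa using h1) (by simpa using h2) (by simpa using h3)
  · obtain ⟨p, q, r, h1, h2, h3⟩ := hr3 h
    exact hT 0 p q 0 r (by simpa using h1) (by simpa using h2) (by simpa using h3)
  · obtain ⟨p, q, r, h1, h2, h3⟩ := hr3 h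
    exact hT 0 p 0 q r (by simpa using h1) (by simpa using h2) (by simpa using h3)
  · obtain ⟨p, q, r, h1, h2, h3⟩ := hr3 h
    exact hT 0 0 p q r (by simpa using h1) (by simpa using h2) (by simpa using h3)
  · obtain ⟨p, q, r, s, h1, h2, h3⟩ := hr4 h
    exact hT p q r 0 s (by simpa using h1) (by simpa using h2) (by simpa using h3)
  · obtain ⟨p, q, r, s, h1, h2, h3⟩ := hr4 h
    exact hT p q 0 r s (by simpa using h1) (by simpa using h2) (by simpa using h3)
  · obtain ⟨p, q, r, s, h1, h2, h3⟩ := hr4 h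
    exact hT p 0 q r s (by simpa using h1) (by simpa using h2) (by simpa using h3)
  · obtain ⟨p, q, r, s, h1, h2, h3⟩ := hr4 h
    exact hT 0 p q r s (by simpa using h1) (by simpa using h2) (by simpa using h3)

lemma normal : ∀ x : ZMod 73, x ≠ 0 → ∃ m ∈ R, ∃ s ∈ [(1 : ℤ), -1], (m : ZMod 73) = s * x := by
  decide +kernel

instance : Fact (Nat.Prime 73) := ⟨by norm_num⟩

lemma noT (a b c d e : ZMod 73) : ¬ T a b c d e := by
  intro hT
  have ha : a ≠ 0 := fun h => hT 1 0 0 0 0 (by simp) (by simp) (by simp [h])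
  have hb : b ≠ 0 := fun h => hT 0 1 0 0 0 (by simp) (by simp) (by simp [h])
  have hc : c ≠ 0 := fun h => hT 0 0 1 0 0 (by simp) (by simp) (by simp [h])
  have hd : d ≠ 0 := fun h => hT 0 0 0 1 0 (by simp) (by simp) (by simp [h])
  have he : e ≠ 0 := fun h => hT 0 0 0 0 1 (by simp) (by simp) (by simp [h])
  obtain ⟨b', hb', sb, hsb, eb⟩ := normal (b / a) (div_ne_zero hb ha)
  obtain ⟨c', hc', sc, hsc, ec⟩ := normal (c / a) (div_ne_zero hc ha)
  obtain ⟨d', hd', sd, hsd, ed⟩ := normal (d / a) (div_ne_zero hd ha)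
  obtain ⟨e', he', se, hse, ee⟩ := normal (e / a) (div_ne_zero he ha)
  have ab : ∀ s ∈ [(1 : ℤ), -1], ∀ x : ℤ, |x * s| = |x| := by
    intro s hs x
    simp only [List.mem_cons, List.not_mem_nil, or_false] at hs
    rcases hs with rfl | rfl <;> simp
  refine noT_nat b' c' d' e' hb' hc' hd' he' fun p q r s u h1 h2 h => ?_
  refine hT p (q * sb) (r * sc) (s * sd) (u * se)
    (by rwa [ab _ hsb, ab _ hsc, ab _ hsd, ab _ hse])
    (by rwa [ab _ hsb, ab _ hsc, ab _ hsd, ab _ hse]) ?_
  rw [eb, ec, ed, ee] at h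
  push_cast
  field_simp at h
  linear_combination h

lemma bdd (n t : ℕ) [NeZero n] :
    BddAbove {m | ∃ A : Finset (ZMod n), Indep n t A ∧ A.card = m} :=
  ⟨Fintype.card (ZMod n), by rintro m ⟨A, -, rfl⟩; exact Finset.card_le_univ A⟩

lemma tau71 : 5 ≤ tau 71 4 :=
  le_csSup (bdd _ _) ⟨{1, 4, 11, 17, 31}, (T_of 71 _ _ _ _ _ (by decide) (by decide) (by decide)
    (by decide) (by decide) (by decide) (by decide) (by decide) (by decide) (by decide)).2 T71,
    by decide⟩

lemma tau73 : tau 73 4 ≤ 4 := by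
  refine csSup_le' ?_
  rintro m ⟨A, hA, rfl⟩
  by_contra h
  obtain ⟨B, hB, hc⟩ := Finset.exists_subset_card_eq (show 5 ≤ A.card by omega)
  obtain ⟨a, C, ha, rfl, hC⟩ := Finset.card_eq_succ.1 hc
  obtain ⟨b, D, hb, rfl, hD⟩ := Finset.card_eq_succ.1 hC
  obtain ⟨c, d, e, h1, h2, h3, rfl⟩ := Finset.card_eq_three.1 hD
  simp only [Finset.mem_insert, Finset.mem_singleton, not_or] at ha hb
  exact noT a b c d e ((T_of 73 a b c d e ha.1 ha.2.1 ha.2.2.1 ha.2.2.2 hb.1 hb.2.1 hb.2.2
    h1 h2 h3).1 (sub_indep hA hB))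

lemma tau1 : tau 1 4 ≤ 1 := by
  refine csSup_le' ?_
  rintro m ⟨A, -, rfl⟩
  simpa using Finset.card_le_univ A

theorem result : tau 73 4 < tau 71 4 ∧ ¬ Monotone (fun k : ℕ => tau (2 * k + 1) 4) ∧
    ¬ Antitone (fun k : ℕ => tau (2 * k + 1) 4) := by
  have h1 := tau71
  have h2 := tau73
  have h3 := tau1
  refine ⟨by omega, fun h => ?_, fun h => ?_⟩
  · have : tau 71 4 ≤ tau 73 4 := h (show 35 ≤ 36 by norm_num)
    omega
  · have : tau 71 4 ≤ tau 1 4 := h (show 0 ≤ 35 by norm_num)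
    omega

end Pool.Agent.Results.MP_3bc6ef_co.Counter
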